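import Mathlib
import Pool.Agent.H633.CY.Stm
set_option autoImplicit false

namespace Pool.Agent.H746.CY633
open Pool.Agent.H633.CY Finset

/-- closure under multiplication by the group algebra -/
lemma mul_mem' {F G : Type} [Field F] [AddCommGroup G] [Fintype G] (C : Submodule F (G → F))
    (hC : TransInv C) (z : AddMonoidAlgebra F G) (r : AddMonoidAlgebra F G)
    (hr : (fun x => r.coeff x) ∈ C) : (fun x => (z * r).coeff x) ∈ C := by
  induction z using AddMonoidAlgebra.induction_linear with
  | zero =>
    have : (fun x => ((0 : AddMonoidAlgebra F G) * r).coeff x) = 0 := by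
      funext x
      rw [zero_mul]
      rfl
    rw [this]
    exact C.zero_mem
  | add a b ha hb =>
    have : (fun x => ((a + b) * r).coeff x) =
        (fun x => (a * r).coeff x) + (fun x => (b * r).coeff x) := by
      funext x
      rw [add_mul]
      rfl
    rw [this]
    exact C.add_mem ha hb
  | single g a =>
    have : (fun x => (AddMonoidAlgebra.single g a * r).coeff x) =
        a • (fun x => r.coeff (x + (-g))) := by
      funext x
      rw [AddMonoidAlgebra.coeff_single_mul_apply, Pi.smul_apply, smul_eq_mul, add_comm (-g) x]
    rw [this]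
    exact C.smul_mem a (hC (-g) _ hr)

theorem step (F : Type) [Field F] [Fintype F] (G : Type) [AddCommGroup G] [Fintype G]
    (hcop : (Fintype.card G).Coprime (Fintype.card F)) (C : Submodule F (G → F))
    (hC : TransInv C) (c : G → F) (hc : c ∈ C) : (fun x => c (Fintype.card F • x)) ∈ C := by
  classical
  obtain ⟨l, hl⟩ := CharP.exists F
  haveI := hl
  have hlp : l.Prime := CharP.char_is_prime F l
  haveI : Fact l.Prime := ⟨hlp⟩
  obtain ⟨f, -, hf⟩ := FiniteField.card F l
  set q := Fintype.card F with hq
  haveI : CharP (AddMonoidAlgebra F G) l :=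
    charP_of_injective_algebraMap (algebraMap F (AddMonoidAlgebra F G)).injective l
  -- multiplication by `q` is a bijection
  have hbij : Function.Bijective (fun x : G => q • x) := by
    have hinj : Function.Injective (fun x : G => q • x) := by
      intro x y hxy
      have h1 : q • (x - y) = 0 := by
        rw [smul_sub]
        exact sub_eq_zero.2 hxy
      have h2 : Fintype.card G • (x - y) = 0 := card_nsmul_eq_zero
      have h3 : addOrderOf (x - y) ∣ 1 := by
        rw [← hcop]
        exact Nat.dvd_gcd (addOrderOf_dvd_of_nsmul_eq_zero h2) (addOrderOf_dvd_of_nsmul_eq_zero h1)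
      have h4 : addOrderOf (x - y) = 1 := Nat.dvd_one.1 h3
      exact sub_eq_zero.1 (AddMonoid.addOrderOf_eq_one_iff.1 h4)
    exact Finite.injective_iff_bijective.1 hinj
  -- the element of the group algebra
  let el : (G → F) → AddMonoidAlgebra F G := fun c => ∑ g : G, AddMonoidAlgebra.single g (c g)
  have hel : ∀ (c : G → F) (x : G), (el c).coeff x = c x := by
    intro c x
    simp only [el]
    rw [AddMonoidAlgebra.coeff_sum, Finsupp.finset_sum_apply, Finset.sum_eq_single x]
    · rw [AddMonoidAlgebra.coeff_single, Finsupp.single_eq_same]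
    · intro b _ hb
      rw [AddMonoidAlgebra.coeff_single, Finsupp.single_eq_of_ne (Ne.symm hb)]
    · intro h
      exact absurd (mem_univ x) h
  -- the q-th power
  have hpow : ∀ (c : G → F) (x : G), (el c ^ q).coeff (q • x) = c x := by
    intro c x
    have h1 : el c ^ q = ∑ g : G, AddMonoidAlgebra.single (q • g) (c g) := by
      rw [hf]
      simp only [el]
      rw [sum_pow_char_pow]
      refine Finset.sum_congr rfl (fun g _ => ?_)
      rw [← hf, AddMonoidAlgebra.single_pow, FiniteField.pow_card]
    rw [h1, AddMonoidAlgebra.coeff_sum, Finsupp.finset_sum_apply, Finset.sum_eq_single x]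
    · rw [AddMonoidAlgebra.coeff_single, Finsupp.single_eq_same]
    · intro b _ hb
      rw [AddMonoidAlgebra.coeff_single, Finsupp.single_eq_of_ne]
      intro h
      exact hb (hbij.1 h.symm)
    · intro h
      exact absurd (mem_univ x) h
  -- powers stay in `C`
  have hmem : ∀ c ∈ C, (fun x => (el c ^ q).coeff x) ∈ C := by
    intro c hc
    have hqpos : 0 < q := Fintype.card_pos
    obtain ⟨m, hm⟩ : ∃ m, q = m + 1 := ⟨q - 1, by omega⟩
    rw [hm, pow_succ]
    refine mul_mem' C hC _ _ ?_
    have : (fun x => (el c).coeff x) = c := by
      funext x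
      exact hel c x
    rw [this]
    exact hc
  -- the self map of `C`
  haveI : Finite C := Finite.of_injective (fun c : C => (c : G → F)) Subtype.val_injective
  let T : C → C := fun c => ⟨fun x => (el c.1 ^ q).coeff x, hmem c.1 c.2⟩
  have hTinj : Function.Injective T := by
    intro a b hab
    apply Subtype.ext
    funext x
    have h1 := congrFun (congrArg Subtype.val hab) (q • x)
    simp only [T] at h1
    rw [hpow, hpow] at h1
    exact h1
  obtain ⟨d, hd⟩ := (Finite.injective_iff_surjective.1 hTinj) ⟨c, hc⟩
  have h2 : (fun x => c (q • x)) = d.1 := by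
    funext x
    have h1 := congrFun (congrArg Subtype.val hd) (q • x)
    simp only [T] at h1
    rw [hpow] at h1
    exact h1.symm
  rw [h2]
  exact d.2

theorem t_frob : S_FROB := by
  intro F _ _ G _ _ hcop C hC c hc s
  induction s with
  | zero =>
    have : (fun x => c (Fintype.card F ^ 0 • x)) = c := by
      funext x
      rw [pow_zero, one_smul]
    rw [this]
    exact hc
  | succ s ih =>
    have h1 := step F G hcop C hC _ ih
    have : (fun x => c (Fintype.card F ^ (s + 1) • x)) =
        (fun x => (fun y => c (Fintype.card F ^ s • y)) (Fintype.card F • x)) := by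
      funext x
      simp only
      rw [smul_smul, pow_succ]
    rw [this]
    exact h1

end Pool.Agent.H746.CY633
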